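import Pool.Agent.Lib.MP_1a91b9_nuX.TG.Dat
import Pool.Agent.Lib.MP_1a91b9_nuW.DY.Top

/-!
# G7: subfields of Galois extensions of the base field of degree a power of `ℓ`

Copy of MP_1a91b9_nuX/TG/Inter.lean for the towers `TowerW` (wild ramification allowed if `ℓ` splits in `K`).
-/

set_option autoImplicit false

namespace Pool.Agent.Lib.MP_1a91b9_nuW.TH

variable [Pool.Agent.Lib.MP_1a91b9_nuT.CD]

open NumberField IsDedekindDomain Module Pool.Agent.Lib.MP_1a91b9_nuT
open Pool.Agent.Lib.MP_1a91b9_nuT.S5 (below mem_below exists_above below_below)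
open Pool.Agent.Lib.MP_1a91b9_nuG (Ram)
open Pool.Agent.Lib.MP_1a91b9_nuX Pool.Agent.Lib.MP_1a91b9_nuX.DB Pool.Agent.Lib.MP_1a91b9_nuX.TG
open Pool.Agent.Lib.MP_1a91b9_nuW.DY (TowerW Splt)

universe u

variable [HC]

/-- The ramification condition over the base field: `ψ v - 1` is prime to `ℓ` at the ramified places, and no place above
`ℓ` is ramified if `ℓ` does not split in `K`. -/
def RamZ (ℓ : ℕ) (F₀ F : Type*) [Field F₀] [NumberField F₀] [Algebra K F₀] [Field F]
    [NumberField F] [Algebra F₀ F] : Prop :=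
  ∀ v : HeightOneSpectrum (𝓞 F₀), Ram F v → ((ℓ : 𝓞 F₀) ∈ v.asIdeal → Splt ℓ) ∧
    IsCoprime (psi F₀ v.asIdeal - 1) (ℓ : 𝓞 K)

/-- `TowerW` is invariant under isomorphisms of `K`-algebras. -/
theorem towerW_congr {P : ∀ (F : Type u) [Field F] [NumberField F] [Algebra K F], Prop}
    (hP : ∀ (F F₂ : Type u) [Field F] [NumberField F] [Algebra K F] [Field F₂] [NumberField F₂]
      [Algebra K F₂], Nonempty (F ≃ₐ[K] F₂) → P F → P F₂) {ℓ : ℕ} {F : Type u} [Field F]
    [NumberField F] [Algebra K F] (h : TowerW P ℓ F) : ∀ (F₂ : Type u) [Field F₂]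
      [NumberField F₂] [Algebra K F₂] (_ : F ≃ₐ[K] F₂), TowerW P ℓ F₂ := by
  intro F₂ _ _ _ e
  cases h with
  | base F hb => exact TowerW.base F₂ (hP F F₂ ⟨e⟩ hb)
  | step N F hG hr hu ha h =>
    let alg : Algebra N F₂ := (e.toRingEquiv.toRingHom.comp (algebraMap N F)).toAlgebra
    have hmap : ∀ y : N, algebraMap N F₂ y = e (algebraMap N F y) := fun y => rfl
    have hst : IsScalarTower K N F₂ := IsScalarTower.of_algebraMap_eq fun x => by
      rw [hmap, ← IsScalarTower.algebraMap_apply K N F, e.commutes]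
    let e' : F ≃ₐ[N] F₂ := AlgEquiv.ofRingEquiv (f := e.toRingEquiv) fun y => rfl
    have hG2 : IsGalois N F₂ := IsGalois.of_algEquiv e'
    have hr2 : finrank N F₂ = ℓ := by rw [← e'.toLinearEquiv.finrank_eq, hr]
    let alg2 : Algebra F₂ F := e'.symm.toRingEquiv.toRingHom.toAlgebra
    have hst2 : IsScalarTower N F₂ F := IsScalarTower.of_algebraMap_eq fun x =>
      (e'.symm.commutes x).symm
    have hram : ∀ v : HeightOneSpectrum (𝓞 N), Ram F₂ v → Ram F v := fun v hv =>
      MP_1a91b9_nuT3.S8.ram_up v hv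
    exact TowerW.step N F₂ hG2 hr2 (fun v h3 hv => hu v h3 (hram v hv))
      (fun v hv => ha v (hram v hv)) h

section
variable {F₀ M : Type u} [Field F₀] [NumberField F₀] [Algebra K F₀] [Field M] [NumberField M]
  [Algebra K M] [Algebra F₀ M] [IsScalarTower K F₀ M] [IsGalois F₀ M]

theorem towerW_inter {ℓ : ℕ} (hℓ : ℓ.Prime) (n : ℕ) (hM : finrank F₀ M = ℓ ^ n) (k : ℕ) :
    ∀ E' : IntermediateField F₀ M, finrank F₀ E' = k → RamZ ℓ F₀ E' →
      TowerW (Cpy F₀) ℓ E' ∧ CPG ℓ F₀ E' := by
  induction k using Nat.strong_induction_on with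
  | _ k ih =>
    intro E' hk hr
    by_cases hE : finrank F₀ E' = 1
    · have hbot : E' = ⊥ := IntermediateField.finrank_eq_one_iff.1 hE
      have hb : Function.Bijective (algebraMap F₀ E') := by
        refine ⟨(algebraMap F₀ E').injective, fun y => ?_⟩
        have hy : (y : M) ∈ (⊥ : IntermediateField F₀ M) := hbot ▸ y.2
        obtain ⟨r, hr⟩ := IntermediateField.mem_bot.1 hy
        exact ⟨r, Subtype.ext hr⟩
      let e : F₀ ≃ₐ[F₀] E' := AlgEquiv.ofBijective (Algebra.ofId F₀ E') hb
      have hG : IsGalois F₀ E' := IsGalois.of_algEquiv e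
      exact ⟨TowerW.base _ ⟨e.restrictScalars K⟩, fun w hw =>
        cop_up hℓ (by rw [hE]; exact one_dvd ℓ) w hw⟩
    · have hfd : FiniteDimensional F₀ M := Module.Finite.of_restrictScalars_finite ℚ F₀ M
      have hcardG : Nat.card Gal(M/F₀) = ℓ ^ n := by
        rw [IsGalois.card_aut_eq_finrank, hM]
      have hmul : finrank F₀ E' * finrank E' M = ℓ ^ n := by
        rw [Module.finrank_mul_finrank, hM]
      have hcardH : Nat.card E'.fixingSubgroup = finrank E' M :=
        IsGalois.card_fixingSubgroup_eq_finrank E'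
      obtain ⟨m, hmn, hm⟩ : ∃ m ≤ n, finrank E' M = ℓ ^ m :=
        (Nat.dvd_prime_pow hℓ).1 ⟨_, by rw [← hmul]; ring⟩
      have hmlt : m < n := by
        rcases hmn.lt_or_eq with h | h
        · exact h
        · exfalso
          apply hE
          rw [hm, h] at hmul
          exact Nat.eq_of_mul_eq_mul_right (pow_pos hℓ.pos n) (by rw [hmul, one_mul])
      have hfact : Fact (Nat.Prime ℓ) := ⟨hℓ⟩
      obtain ⟨H, hHcard, hHle⟩ := Sylow.exists_subgroup_card_pow_succ (p := ℓ) (n := m)
        (by rw [hcardG]; exact pow_dvd_pow ℓ hmlt) (H := E'.fixingSubgroup) (by rw [hcardH, hm])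
      set E'' : IntermediateField F₀ M := IntermediateField.fixedField H with hE''
      have hle : E'' ≤ E' := by
        have h1 := IntermediateField.fixedField_antitone (F := F₀) (E := M) hHle
        rwa [IsGalois.fixedField_fixingSubgroup] at h1
      have hdeg : finrank E'' M = ℓ ^ (m + 1) := by
        rw [← hHcard, hE'']
        exact IntermediateField.finrank_fixedField_eq_card H
      have hmul2 : finrank F₀ E'' * finrank E'' M = ℓ ^ n := by
        rw [Module.finrank_mul_finrank, hM]
      have hdbl : finrank F₀ E' = ℓ * finrank F₀ E'' := by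
        have hp : 0 < ℓ ^ m := pow_pos hℓ.pos m
        rw [hdeg, ← hmul, hm, pow_succ] at hmul2
        have h3 : ℓ ^ m * (ℓ * finrank F₀ E'') = ℓ ^ m * finrank F₀ E' := by
          rw [mul_comm (ℓ ^ m) (finrank F₀ E'), ← hmul2]
          ring
        exact (Nat.eq_of_mul_eq_mul_left hp h3).symm
      let alg : Algebra E'' E' := (IntermediateField.inclusion hle).toRingHom.toAlgebra
      have hst : IsScalarTower F₀ E'' E' :=
        IsScalarTower.of_algebraMap_eq fun x => ((IntermediateField.inclusion hle).commutes x).symm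
      have hst2 : IsScalarTower E'' E' M := IsScalarTower.of_algebraMap_eq fun x => rfl
      have hst3 : IsScalarTower K E'' E' := IsScalarTower.of_algebraMap_eq fun x => rfl
      have hpos : 0 < finrank F₀ E'' := finrank_pos
      have hcub : finrank E'' E' = ℓ := by
        have h4 := Module.finrank_mul_finrank F₀ E'' E'
        rw [hdbl, mul_comm] at h4
        exact Nat.eq_of_mul_eq_mul_right hpos h4
      have hG : IsGalois E'' E' := by
        have h5 : IsGalois E'' M := inferInstance
        exact MP_1a91b9_nuT3.S8.galois_of_prime (M := M) hℓ hdeg hcub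
      have hr'' : RamZ ℓ F₀ E'' := fun q hq => hr q (MP_1a91b9_nuT3.S8.ram_up q hq)
      have hlt : finrank F₀ E'' < k := by
        rw [← hk, hdbl]
        exact lt_mul_of_one_lt_left hpos hℓ.one_lt
      obtain ⟨hT, hCP⟩ := ih (finrank F₀ E'') hlt E'' rfl hr''
      refine ⟨TowerW.step E'' E' hG hcub ?_ ?_ hT, ?_⟩
      · intro v h3 hv
        have h4 := (hr _ (MP_1a91b9_nuT3.S8.ram_down (k := F₀) v hv)).1
        apply h4
        rw [mem_below, map_natCast]
        exact h3
      · intro v hv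
        exact hCP v (hr _ (MP_1a91b9_nuT3.S8.ram_down (k := F₀) v hv)).2
      · intro w hw
        refine cop_up hℓ (by rw [hcub]) w (hCP (below E'' w) ?_)
        rw [below_below]
        exact hw

/-- Subfields of Galois extensions of `F₀` of degree a power of `ℓ`, with the ramification
condition, are towers. -/
theorem towerW_of_galois {ℓ : ℕ} (hℓ : ℓ.Prime) (F : Type u) [Field F] [NumberField F]
    [Algebra K F] [Algebra F₀ F] [Algebra F M] [IsScalarTower F₀ F M] [IsScalarTower K F₀ F]
    (n : ℕ) (hM : finrank F₀ M = ℓ ^ n) (hF : RamZ ℓ F₀ F) : TowerW (Cpy F₀) ℓ F := by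
  let f : F →ₐ[F₀] M := IsScalarTower.toAlgHom F₀ F M
  let e : F ≃ₐ[F₀] f.fieldRange := AlgEquiv.ofInjectiveField f
  have hr : RamZ ℓ F₀ f.fieldRange := by
    intro q hq
    apply hF q
    let alg2 : Algebra f.fieldRange F := e.symm.toRingEquiv.toRingHom.toAlgebra
    have hst2 : IsScalarTower F₀ f.fieldRange F := IsScalarTower.of_algebraMap_eq fun x =>
      (e.symm.commutes x).symm
    exact MP_1a91b9_nuT3.S8.ram_up q hq
  exact towerW_congr (P := Cpy F₀) (fun A B _ _ _ _ _ _ h1 h2 => ⟨h2.some.trans h1.some⟩)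
    (towerW_inter hℓ n hM _ f.fieldRange rfl hr).1 F (e.symm.restrictScalars K)

end

section
variable {ℓ : ℕ} (hℓ : ℓ.Prime) (F₀ L M : Type) [Field F₀] [NumberField F₀]
  [Algebra K F₀] [Field L] [NumberField L] [Field M] [NumberField M] [Algebra K L]
  [Algebra K M] [Algebra F₀ L] [Algebra L M] [Algebra F₀ M] [IsScalarTower K F₀ L]
  [IsScalarTower K F₀ M] [IsScalarTower F₀ L M] [IsGalois F₀ M] (n : ℕ)
  (hM : finrank F₀ M = ℓ ^ n) (hL : RamZ ℓ F₀ L)
include hℓ hM hL

/-- The fields between `F₀` and `L` are in the tower. -/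
theorem tower_subW (F : Type) [Field F] [NumberField F] [Algebra K F] [Algebra F₀ F] [Algebra F L]
    [IsScalarTower K F₀ F] [IsScalarTower F₀ F L] : TowerW (Cpy F₀) ℓ F := by
  let aFM : Algebra F M := ((algebraMap L M).comp (algebraMap F L)).toAlgebra
  have t1 : IsScalarTower F₀ F M := IsScalarTower.of_algebraMap_eq fun x => by
    change algebraMap F₀ M x = algebraMap L M (algebraMap F L (algebraMap F₀ F x))
    rw [← IsScalarTower.algebraMap_apply F₀ F L, ← IsScalarTower.algebraMap_apply F₀ L M]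
  exact towerW_of_galois (M := M) hℓ F n hM fun v hv => hL v (MP_1a91b9_nuT3.S8.ram_up v hv)

end

end Pool.Agent.Lib.MP_1a91b9_nuW.TH
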