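import Pool.Agent.Lib.MP_1a91b9_nuW.TH.Alg
import Pool.Agent.Lib.MP_1a91b9_nuW.ZD.Low

/-!
# G7: the tower with wild ramification

`STW ℓ`: the step of the unit property above `p` for `ℓ = p cj p` (proved in WN); `GoodZ`: the properties of the
fields of the tower.
-/

set_option autoImplicit false

namespace Pool.Agent.Lib.MP_1a91b9_nuW.TH

variable [Pool.Agent.Lib.MP_1a91b9_nuT.CD]

open NumberField IsDedekindDomain WeierstrassCurve Module Pool.Agent.Lib.MP_1a91b9_nuT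
open Pool.Agent.Lib.MP_1a91b9_nuX Pool.Agent.Lib.MP_1a91b9_nuX.DB Pool.Agent.Lib.MP_1a91b9_nuX.DX
  Pool.Agent.Lib.MP_1a91b9_nuX.DS
open Pool.Agent.Lib.MP_1a91b9_nuX.TG (e2_up e2_down five_le not_ram_of_unr)
open Pool.Agent.Lib.MP_1a91b9_nuX.TH (BaseH GoodH unitProp_tower unr_tower)
open Pool.Agent.Lib.MP_1a91b9_nuW.DS Pool.Agent.Lib.MP_1a91b9_nuW.DY
open Pool.Agent.Lib.MP_1a91b9_nuW.ZD
open Pool.Agent.Lib.MP_1a91b9_nuG (Ram)
open scoped Classical
open Pool.Agent.Lib.MP_1a91b9_nuT3.S9 (ShaP)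

universe u

/-- What is needed about the field `F` over `K` for the `ℓ`-part of the formula. -/
structure GoodZ [HC] (ℓ : ℕ) [Fact ℓ.Prime] (F : Type u) [Field F] [NumberField F]
    [Algebra K F] : Prop where
  good : ¬ (ℓ : ℤ) ∣ CD.bad
  fin : Finite (E F).toAffine.Point
  cop : (Nat.card (E F).toAffine.Point).Coprime ℓ
  sha : Subsingleton (ShaP ℓ (E F))
  unitZ : UnitZ ℓ F
  wok : WOk ℓ F

/-- The step of the unit property above `p` for `ℓ = p cj p`. -/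
def STW [HC] (ℓ : ℕ) : Prop :=
  ∀ (F F' : Type u) [Field F] [NumberField F] [Algebra K F] [Field F'] [NumberField F']
    [Algebra K F'] [Algebra F F'] [IsScalarTower K F F'] [IsGalois F F'],
    finrank F F' = ℓ → ¬ ℓ ∣ 2 ^ finrank K F - 1 →
    (∀ v : HeightOneSpectrum (𝓞 F), Ram F' v → IsCoprime (psi F v.asIdeal - 1) (ℓ : 𝓞 K)) →
    ∀ p : 𝓞 K, Spl p ℓ → UnitW p F → UnitW p F'

theorem exists_spl {ℓ : ℕ} (hℓ : ℓ.Prime) (h2 : ℓ ≠ 2) (hs : Splt ℓ) : ∃ p : 𝓞 K, Spl p ℓ := by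
  obtain ⟨p, hp, hc⟩ := hs
  exact ⟨p, hℓ, h2, hp, hc⟩

/-- the series of `F` continues and does not vanish at `1` -/
theorem lgood_of_unitZ [HC] {ℓ : ℕ} (hℓ : ℓ.Prime) {F : Type u} [Field F] [NumberField F]
    [Algebra K F] (h : UnitZ ℓ F) : AN.LGood F := by
  obtain ⟨L, hL, hL1, hv⟩ := h
  obtain ⟨A, hA⟩ := Ell.d3_exists hℓ
  obtain ⟨d, hd⟩ := exists_dg F
  refine ⟨L, hL, hL1, fun h0 => ?_⟩
  have h1 := hv A hA d hd
  rw [h0, zero_div, map_zero, zero_pow two_ne_zero, zero_mul] at h1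
  exact zero_ne_one h1

section
variable [HC]
  {P : ∀ (F : Type u) [Field F] [NumberField F] [Algebra K F], Prop} {ℓ : ℕ}
  (hP : ∀ (F : Type u) [Field F] [NumberField F] [Algebra K F], P F → BaseH ℓ F)
  (hℓ : ℓ.Prime)
include hP hℓ

/-- the unit property above `p` over the fields of the tower -/
theorem unitW_towerW (hS : STW.{u} ℓ) {p : 𝓞 K} (hp : Spl p ℓ) {F : Type u} [Field F]
    [NumberField F] [Algebra K F] (h : TowerW P ℓ F) : UnitW p F := by
  induction h with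
  | base F hb =>
    refine unitW_of_unitZ hℓ.ne_zero ⟨_, hp.mul.symm⟩ (unitZ_of_unit hℓ.ne_zero ?_ (hP F hb).unit)
    intro q hq
    exact not_ram_of_unr (hP F hb).unr hℓ.ne_zero q hq
  | step F F' hG hr hu ha h ih =>
    exact hS F F' hr (e2_towerW hP hℓ h) ha p hp ih

/-- the unit property above `ℓ` over the fields of the tower -/
theorem unitZ_towerW (hD : ¬ (ℓ : ℤ) ∣ CD.bad) (hS : STW.{u} ℓ) {F : Type u} [Field F]
    [NumberField F] [Algebra K F] (h : TowerW P ℓ F) : UnitZ ℓ F := by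
  by_cases hs : Splt ℓ
  · obtain ⟨p, hp⟩ := exists_spl hℓ (by have := five_le hℓ hD; omega) hs
    exact unitZ_of_unitW hp.mul (unitW_towerW hP hℓ hS hp h)
      (unitW_towerW hP hℓ hS (spl_conj hp) h)
  · have h' := towerG_of_towerW hs h
    exact unitZ_of_unit hℓ.ne_zero (unr_tower hℓ hP h') (unitProp_tower hℓ hD hP h')

theorem wok_towerW (hD : ¬ (ℓ : ℤ) ∣ CD.bad) {F : Type u} [Field F] [NumberField F]
    [Algebra K F] (h : TowerW P ℓ F) : WOk ℓ F := by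
  refine ⟨e2_towerW hP hℓ h, ?_⟩
  by_cases hs : Splt ℓ
  · exact Or.inl (exists_spl hℓ (by have := five_le hℓ hD; omega) hs)
  · exact Or.inr (unr_tower hℓ hP (towerG_of_towerW hs h))

theorem lgood_towerW (hD : ¬ (ℓ : ℤ) ∣ CD.bad) (hS : STW.{u} ℓ) {F : Type u} [Field F]
    [NumberField F] [Algebra K F] (h : TowerW P ℓ F) : AN.LGood F :=
  lgood_of_unitZ hℓ (unitZ_towerW hP hℓ hD hS h)

omit hℓ in
/-- **The fields of the tower** satisfy the hypotheses of the `ℓ`-part of the formula. -/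
theorem goodZ_towerW [hℓ' : Fact ℓ.Prime] (hD : ¬ (ℓ : ℤ) ∣ CD.bad) (hS : STW.{u} ℓ)
    {F : Type u} [Field F] [NumberField F] [Algebra K F] (h : TowerW P ℓ F) : GoodZ ℓ F := by
  obtain ⟨h1, h2, h3⟩ := alg_towerW hP F hD h
  exact ⟨hD, h1, h2, h3, unitZ_towerW hP hℓ'.out hD hS h, wok_towerW hP hℓ'.out hD h⟩

end

end Pool.Agent.Lib.MP_1a91b9_nuW.TH
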