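import Pool.Agent.Lib.MP_1a91b9_nuX.TH.Gen
import Pool.Agent.Lib.MP_1a91b9_nuX.PX.Dat
import Pool.Agent.Lib.MP_1a91b9_nuW.TH.Sub
import Pool.Agent.Lib.MP_1a91b9_nuW.TH.Twr

/-!
# G7: the forms of the curve over the subfields of `L`

The field `F = N F₀` inside `L` for a subfield `N` of `L` which contains `K`; the conclusion for the L-series and the rank.
-/

set_option autoImplicit false

namespace Pool.Agent.Lib.MP_1a91b9_nuW.TH

open NumberField IsDedekindDomain WeierstrassCurve Module IntermediateField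
  Pool.Agent.Lib.MP_1a91b9_nuT
open Pool.Agent.Lib.MP_1a91b9_nuX Pool.Agent.Lib.MP_1a91b9_nuX.DB Pool.Agent.Lib.MP_1a91b9_nuX.GL
open Pool.Agent.Lib.MP_1a91b9_nuG (up)
open Pool.Agent.Lib.MP_1a91b9_nuX.PG (FDat)
open Pool.Agent.Lib.MP_1a91b9_nuX.PH (Fm psP fdatP eulD_P)
open Pool.Agent.Lib.MP_1a91b9_nuX.TG
open Pool.Agent.Lib.MP_1a91b9_nuX.LG
open Pool.Agent.Lib.MP_1a91b9_nuX.TH (NaW BaseH naW_up naW_down naW_iso iso_F exists_chW abW_of
  goodP_of fm_up fm_iso)
open Pool.Agent.Lib.MP_1a91b9_nuW.ZD Pool.Agent.Lib.MP_1a91b9_nuW.DY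

variable [CD] [HC]

/-- The hypotheses of the `ℓ`-part of the formula for a form `W` of the curve over `N`, `F = N F₀`. -/
structure DatZ (ℓ : ℕ) [Fact ℓ.Prime] (c : 𝓞 K) (N F F₀ : Type) [Field N] [NumberField N]
    [Algebra K N] [Field F] [NumberField F] [Algebra K F] [Field F₀] [NumberField F₀]
    [Algebra K F₀] [Algebra N F] [Algebra F₀ F] (W : WeierstrassCurve N)
    (D₀ : VariableChange F) : Prop where
  gen : IntermediateField.adjoin N (Set.range (algebraMap F₀ F)) = ⊤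
  good : GoodZ ℓ F
  iso : D₀ • W.map (algebraMap N F) = E F
  nawF : NaW ℓ c (E F)

section
variable {ℓ : ℕ} [hℓ : Fact ℓ.Prime] (hD : ¬ (ℓ : ℤ) ∣ CD.bad) (hS : STW.{0} ℓ)
  (F₀ L M : Type) [Field F₀] [NumberField F₀]
  [Algebra K F₀] (hB : ∀ (F : Type) [Field F] [NumberField F] [Algebra K F],
    Cpy F₀ F → BaseH ℓ F) [Field L] [NumberField L] [Field M] [NumberField M] [Algebra K L]
  [Algebra K M] [Algebra F₀ L] [Algebra L M] [Algebra F₀ M] [IsScalarTower K F₀ L]
  [IsScalarTower K F₀ M] [IsScalarTower F₀ L M] [IsGalois F₀ M] (n : ℕ)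
  (hM : finrank F₀ M = ℓ ^ n) (hL : RamZ ℓ F₀ L)
include hℓ hD hS hB hM hL

/-- The forms of the curve over the subfields `N` of `L` which contain `K`. -/
theorem datZ_of_K (hE : EllK) {c : 𝓞 K} (hnw : NaW ℓ c (E F₀)) (N : Type) [Field N]
    [NumberField N] [Algebra K N] [Algebra N L]
    [IsScalarTower K N L] {W : WeierstrassCurve N} {C : VariableChange L}
    (hC : C • W.baseChange L = E L) :
    ∃ (F : Type) (_ : Field F) (_ : NumberField F) (_ : Algebra K F) (_ : Algebra N F)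
      (_ : Algebra F₀ F) (_ : IsScalarTower K N F) (_ : IsScalarTower K F₀ F)
      (D₀ : VariableChange F), DatZ ℓ c N F F₀ W D₀ := by
  have h6 := coprime_six hℓ.out (five_le hℓ.out hD)
  obtain ⟨F, _, _, _, _, _, _, t1, t2, t3, t4, t5, hgen⟩ := exists_NF F₀ L N
  have hT' := tower_subW hℓ.out F₀ L M n hM hL F
  have hg := goodZ_towerW (fun F _ _ _ h => hB F h) hD hS hT'
  have hwM : NaW ℓ c (E M) := naW_up hE hℓ.out h6 hM hnw
  let aFM : Algebra F M := ((algebraMap L M).comp (algebraMap F L)).toAlgebra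
  have tKLM : ∀ x : K, algebraMap L M (algebraMap K L x) = algebraMap K M x := by
    intro x
    rw [IsScalarTower.algebraMap_apply K F₀ L, ← IsScalarTower.algebraMap_apply F₀ L M,
      ← IsScalarTower.algebraMap_apply K F₀ M]
  have t6 : IsScalarTower K F M :=
    IsScalarTower.of_algebraMap_eq (R := K) (S := F) (A := M) fun x => by
      change algebraMap K M x = algebraMap L M (algebraMap F L (algebraMap K F x))
      rw [← IsScalarTower.algebraMap_apply K F L, tKLM]
  have hwF : NaW ℓ c (E F) := naW_down (F := M) hE (TH.fm_E F) (by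
    rw [TG.E_map]
    exact hwM)
  obtain ⟨D₀, hD₀⟩ := iso_F h6 F₀ L M n hM N F hC
  exact ⟨F, inferInstance, inferInstance, inferInstance, inferInstance, inferInstance,
    inferInstance, inferInstance, D₀, hgen, hg, hD₀, hwF⟩

omit hℓ in
/-- The curves over a subfield `N` of `L` which contains `K`. -/
theorem form_of_K (hℓ : ℓ.Prime) (hE : EllK) {μ : 𝓞 K} (L' : Type) [Field L']
    [NumberField L'] [Algebra K L']
    [Algebra F₀ L'] [IsScalarTower K F₀ L'] [IsGalois K L'] [DecidableEq L'] {T : Pt L'}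
    (hT : AbT μ K T) (N : Type) [Field N] [NumberField N] [Algebra K N] [Algebra N L]
    [IsScalarTower K N L] {W : WeierstrassCurve N} {C : VariableChange L}
    (hC : C • W.baseChange L = E L) :
    (∃ m : Ideal (𝓞 N), FDat N W m (psP W)) ∧ GoodP (psP W) ∧ Finite W.toAffine.Point ∧
      Fm W := by
  have h6 := coprime_six hℓ (five_le hℓ hD)
  obtain ⟨F, _, _, _, _, _, _, t1, t2, t3, t4, t5, hgen⟩ := exists_NF F₀ L N
  have hT' := tower_subW hℓ F₀ L M n hM hL F
  have hg := lgood_towerW (fun F _ _ _ h => hB F h) hℓ hD hS hT'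
  have hf := finite_towerW (fun F _ _ _ h => hB F h) F hD hℓ hT'
  obtain ⟨D₀, hD₀⟩ := iso_F h6 F₀ L M n hM N F hC
  have hab := abW_of N F F₀ L' hT hgen hD₀
  obtain ⟨m, hm⟩ := fdatP hE hT.ne hab
  obtain ⟨c, hc, h1, -⟩ := exists_chW hE N F F₀ L' hT hgen hD₀
  refine ⟨⟨m, hm⟩, goodP_of hm hc (PA.fdat_cont hm) (h1 hg), ?_, ?_⟩
  · exact TG.finite_down W (E F) D₀ hD₀ hf
  · exact fm_up (fm_iso D₀ hD₀ (TH.fm_E F))

omit hℓ in
/-- **The conclusion for the L-series and the rank.** -/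
theorem conclR_sub (hℓ : ℓ.Prime) (hE : EllK) {μ : 𝓞 K} (L' : Type) [Field L'] [NumberField L']
    [Algebra K L']
    [Algebra F₀ L'] [IsScalarTower K F₀ L'] [IsGalois K L'] [DecidableEq L'] {T : Pt L'}
    (hT : AbT μ K T) (N : Type) [Field N] [NumberField N] [Algebra N L]
    (W : WeierstrassCurve N) (C : VariableChange L) (hC : C • W.baseChange L = E L) :
    ConclR W := by
  rcases exists_sub L N with ⟨aKN, hst⟩ | ⟨F, _, _, _, _, _, t1, t2, h2, hn⟩
  · obtain ⟨⟨m, hm⟩, hg, hf, -⟩ := form_of_K hD hS F₀ L M hB n hM hL hℓ hE L' hT N hC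
    exact ⟨lconcl_K hm hg, hf⟩
  · have e1 : (W.map (algebraMap N F)).baseChange L = W.baseChange L := by
      change (W.map (algebraMap N F)).map (algebraMap F L) = W.map (algebraMap N L)
      rw [WeierstrassCurve.map_map, ← IsScalarTower.algebraMap_eq]
    obtain ⟨⟨m, hm⟩, hg, hf, hfm⟩ := form_of_K hD hS F₀ L M hB n hM hL hℓ hE L' hT F
      (W := W.map (algebraMap N F)) (C := C) (by rw [e1]; exact hC)
    refine ⟨lconcl_N hm (eulD_P hE h2 hn hfm) hg, ?_⟩
    exact TG.finite_down W (W.map (algebraMap N F)) 1 (one_smul _ _) hf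

end

end Pool.Agent.Lib.MP_1a91b9_nuW.TH
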