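import Pool.Agent.Lib.MP_1a91b9_nuX.TH.Gda
import Pool.Agent.Lib.MP_1a91b9_nuT.PL.Main

/-!
# G7: the places above `ℓ` in the fields `N ⊆ N F₀` and `N ⊆ N K`

`F₀` is contained in the field of a torsion point of order prime to `ℓ`, so `N F₀ / N` is unramified above `ℓ`, also if
`ℓ` ramifies in `N`. A form `W` over `N` of the curve which becomes isomorphic to the curve over `N F₀` has good reduction
above `ℓ`.
-/

set_option autoImplicit false

namespace Pool.Agent.Lib.MP_1a91b9_nuW.TH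

open NumberField IsDedekindDomain WeierstrassCurve Module Pool.Agent.Lib.MP_1a91b9_nuT
open Pool.Agent.Lib.MP_1a91b9_nuX Pool.Agent.Lib.MP_1a91b9_nuX.DB Pool.Agent.Lib.MP_1a91b9_nuX.GL
open Pool.Agent.Lib.MP_1a91b9_nuG (up)
open Pool.Agent.Lib.MP_1a91b9_nuX.PG (Gd)
open Pool.Agent.Lib.MP_1a91b9_nuX.PH
open Pool.Agent.Lib.MP_1a91b9_nuX.TG Pool.Agent.Lib.MP_1a91b9_nuX.TC
open Pool.Agent.Lib.MP_1a91b9_nuX.TH (gd_down galois_two gB_cop)
open Pool.Agent.Lib.MP_1a91b9_nuT.TG (exists_comp)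

variable [CD]

/-- nothing above `ℓ` ramifies in `N K / N` -/
theorem not_ram_two {ℓ : ℕ} (hℓ : ℓ.Prime) (hD : ¬ (ℓ : ℤ) ∣ CD.bad) {N₁ N : Type} [Field N₁]
    [NumberField N₁] [Field N] [NumberField N] [Algebra K N] [Algebra N₁ N] [IsGalois N₁ N]
    (h2 : finrank N₁ N = 2) (hn : ∀ x : N₁, algebraMap N₁ N x ≠ algebraMap K N om)
    {v : HeightOneSpectrum (𝓞 N₁)} (hv : (ℓ : 𝓞 N₁) ∈ v.asIdeal) : ¬ CF.Ram N v := by
  obtain ⟨w, rfl⟩ := CF.exists_over (k := N₁) (N := N) v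
  have hw : (ℓ : 𝓞 N) ∈ w.asIdeal := by
    have h1 : algebraMap (𝓞 N₁) (𝓞 N) (ℓ : 𝓞 N₁) ∈ w.asIdeal := hv
    rwa [map_natCast] at h1
  have hd : ¬ (ℓ : ℤ) ∣ CD.tr ^ 2 - 4 * CD.nm := fun h =>
    hD ((Dvd.dvd.mul_left h _).trans CD.bad_dvd)
  have hdw : ((CD.tr ^ 2 - 4 * CD.nm : ℤ) : 𝓞 N) ∉ w.asIdeal := by
    intro h
    obtain ⟨a, b, hab⟩ := (Prime.coprime_iff_not_dvd (Nat.prime_iff_prime_int.1 hℓ)).2 hd
    apply w.isPrime.ne_top
    rw [Ideal.eq_top_iff_one]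
    have h1 := congrArg (fun z : ℤ => (z : 𝓞 N)) hab
    simp only [Int.cast_add, Int.cast_mul, Int.cast_one, Int.cast_natCast] at h1
    rw [← h1]
    exact w.asIdeal.add_mem (Ideal.mul_mem_left _ _ hw) (Ideal.mul_mem_left _ _ h)
  have h1 : w.asIdeal.inertia Gal(N/N₁) = ⊥ := by
    rw [eq_bot_iff]
    intro σ hσ
    rw [Subgroup.mem_bot]
    by_contra hne
    obtain ⟨z, hz⟩ : ∃ z : N, z = algebraMap K N om := ⟨_, rfl⟩
    have hz2 : z ^ 2 = (CD.tr : N) * z - (CD.nm : N) := by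
      have h3 := congrArg (algebraMap K N) om_quad
      rw [map_pow, map_sub, map_mul, map_intCast, map_intCast, ← hz] at h3
      exact h3
    have hσz : σ z ≠ z := by
      intro h3
      apply hne
      apply AlgEquiv.ext
      intro x
      obtain ⟨a, b, rfl⟩ := MP_1a91b9_nuT.PL.exists_coord h2 z (fun a => by
        rw [hz]
        exact hn a) x
      rw [map_add, map_mul, σ.commutes, σ.commutes, h3]
      rfl
    have hσ2 : σ z ^ 2 = (CD.tr : N) * σ z - (CD.nm : N) := by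
      rw [← map_pow, hz2, map_sub, map_mul, map_intCast, map_intCast]
    have hs : σ z = (CD.tr : N) - z := by
      have h3 : (σ z - z) * (σ z - ((CD.tr : N) - z)) = 0 := by
        linear_combination hσ2 - hz2
      rcases mul_eq_zero.1 h3 with h4 | h4
      · exact absurd (sub_eq_zero.1 h4) hσz
      · exact sub_eq_zero.1 h4
    obtain ⟨t, ht⟩ : ∃ t : 𝓞 N, t = algebraMap (𝓞 K) (𝓞 N) ta := ⟨_, rfl⟩
    have htz : algebraMap (𝓞 N) N t = z := by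
      rw [ht, hz]
      rfl
    have h3 : σ • t - t ∈ w.asIdeal := hσ t
    have h4 : (σ • t - t) ^ 2 = ((CD.tr ^ 2 - 4 * CD.nm : ℤ) : 𝓞 N) := by
      apply RingOfIntegers.ext
      change algebraMap (𝓞 N) N ((σ • t - t) ^ 2) = algebraMap (𝓞 N) N _
      have h5 : algebraMap (𝓞 N) N (σ • t) = σ z := by
        rw [← htz]
        rfl
      rw [map_pow, map_sub, h5, htz, hs, map_intCast]
      push_cast
      linear_combination 4 * hz2
    apply hdw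
    rw [← h4]
    exact Ideal.pow_mem_of_mem _ h3 2 (by norm_num)
  have hp0 : w.asIdeal.under (𝓞 N₁) ≠ ⊥ := (w.under (𝓞 N₁)).ne_bot
  have hfin : Finite (𝓞 N₁ ⧸ w.asIdeal.under (𝓞 N₁)) :=
    Ideal.finiteQuotientOfFreeOfNeBot _ hp0
  have h3 := Ideal.card_inertia_eq_ramificationIdxIn (G := Gal(N/N₁)) (w.asIdeal.under (𝓞 N₁))
    w.asIdeal
  intro h4
  apply h4
  change Ideal.ramificationIdxIn (w.asIdeal.under (𝓞 N₁)) (𝓞 N) = 1
  rw [← h3, h1]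
  exact Nat.card_unique

variable [HC]

theorem up_gB_notMem {ℓ : ℕ} (hℓ : ℓ.Prime) (hD : ¬ (ℓ : ℤ) ∣ CD.bad) {μ : 𝓞 K}
    (hμ : ¬ ℓ ∣ nAb μ) {N : Type} [Field N] [NumberField N] [Algebra K N]
    {v : HeightOneSpectrum (𝓞 N)} (hv : (ℓ : 𝓞 N) ∈ v.asIdeal) : up (gB μ) N ∉ v.asIdeal := by
  intro h
  obtain ⟨a, b, hab⟩ := (gB_cop hℓ hD hμ).map (algebraMap (𝓞 K) (𝓞 N))
  rw [map_natCast] at hab
  apply v.isPrime.ne_top
  rw [Ideal.eq_top_iff_one, ← hab]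
  exact v.asIdeal.add_mem (Ideal.mul_mem_left _ _ h) (Ideal.mul_mem_left _ _ hv)

section
variable {ℓ : ℕ} (hℓ : ℓ.Prime) (hD : ¬ (ℓ : ℤ) ∣ CD.bad) {μ : 𝓞 K} (hμ : ¬ ℓ ∣ nAb μ)
  (N F F₀ L' : Type)
  [Field N] [NumberField N] [Algebra K N] [Field F]
  [NumberField F] [Algebra K F] [Field F₀] [NumberField F₀] [Algebra K F₀] [Field L']
  [NumberField L'] [Algebra K L'] [Algebra N F] [Algebra F₀ F] [Algebra F₀ L']
  [IsScalarTower K N F] [IsScalarTower K F₀ F] [IsScalarTower K F₀ L'] [IsGalois K L']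
  [DecidableEq L'] {T : Pt L'} (hT : AbT μ K T)
  (hgen : IntermediateField.adjoin N (Set.range (algebraMap F₀ F)) = ⊤)
include hℓ hD hμ hT hgen

/-- nothing above `ℓ` ramifies in `N F₀ / N` -/
theorem not_ram_sub {v : HeightOneSpectrum (𝓞 N)} (hv : (ℓ : 𝓞 N) ∈ v.asIdeal) :
    ¬ MP_1a91b9_nuG.Ram F v := by
  classical
  obtain ⟨L, _, _, _, _, _, _, t1, t2, t3, t4, hG, hL⟩ := exists_comp N F F₀ L' hgen
  intro h
  exact (hT.up (N := N) hL).not_ram v (up_gB_notMem hℓ hD hμ hv)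
    (MP_1a91b9_nuT3.S8.ram_up v h)

/-- good reduction above `ℓ` over a field which contains `K` -/
theorem gd_ell_K {W : WeierstrassCurve N} {D₀ : VariableChange F}
    (hi : D₀ • W.map (algebraMap N F) = E F) (v : HeightOneSpectrum (𝓞 N))
    (hv : (ℓ : 𝓞 N) ∈ v.asIdeal) : Gd W v := by
  have hG : IsGalois N F := PX.galois_sub N F F₀ L' hT hgen
  obtain ⟨w, rfl⟩ := CF.exists_over (k := N) (N := F) v
  refine gd_down (F := F) (fun h1 => not_ram_sub hℓ hD hμ N F F₀ L' hT hgen hv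
    ((MP_1a91b9_nuG.ram_eq _).2 h1)) ?_
  refine (LG.gd_iso hi w).2 (TH.gd_E fun hf => ?_)
  obtain ⟨x, y, hxy⟩ := f_coprime hℓ hD
  apply ((w.under (𝓞 K))).isPrime.ne_top
  rw [Ideal.eq_top_iff_one, ← hxy]
  refine (w.under (𝓞 K)).asIdeal.add_mem (Ideal.mul_mem_left _ _ hf) (Ideal.mul_mem_left _ _ ?_)
  change algebraMap (𝓞 K) (𝓞 F) (ℓ : 𝓞 K) ∈ w.asIdeal
  rw [map_natCast]
  have hv' : algebraMap (𝓞 N) (𝓞 F) (ℓ : 𝓞 N) ∈ w.asIdeal := hv
  rwa [map_natCast] at hv'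

/-- good reduction above `ℓ` over a field which does not contain `K` -/
theorem gd_ell_N {N₁ : Type} [Field N₁] [NumberField N₁] [Algebra N₁ N]
    (h2 : finrank N₁ N = 2) (hn : ∀ x : N₁, algebraMap N₁ N x ≠ algebraMap K N om)
    {W : WeierstrassCurve N₁} {D₀ : VariableChange F}
    (hi : D₀ • (W.map (algebraMap N₁ N)).map (algebraMap N F) = E F)
    (v : HeightOneSpectrum (𝓞 N₁)) (hv : (ℓ : 𝓞 N₁) ∈ v.asIdeal) : Gd W v := by
  have hG : IsGalois N₁ N := galois_two h2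
  obtain ⟨w, rfl⟩ := CF.exists_over (k := N₁) (N := N) v
  refine gd_down (F := N) (not_ram_two hℓ hD h2 hn hv)
    (gd_ell_K hℓ hD hμ N F F₀ L' hT hgen hi w ?_)
  have hv' : algebraMap (𝓞 N₁) (𝓞 N) (ℓ : 𝓞 N₁) ∈ w.asIdeal := hv
  rwa [map_natCast] at hv'

end

end Pool.Agent.Lib.MP_1a91b9_nuW.TH
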