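import Pool.Agent.Lib.MP_1a91b9_nuX.TH.Dat
import Pool.Agent.Lib.MP_1a91b9_nuW.TH.Dat
import Pool.Agent.Lib.MP_1a91b9_nuW.TH.Gda
import Pool.Agent.Lib.MP_1a91b9_nuW.QW.GluN

/-!
# G7: the `ℓ`-part of the formula for the forms of the curve over the subfields of `L`
-/

set_option autoImplicit false

namespace Pool.Agent.Lib.MP_1a91b9_nuW.TH

open NumberField IsDedekindDomain WeierstrassCurve Module Pool.Agent.Lib.MP_1a91b9_nuT
open Pool.Agent.Lib.MP_1a91b9_nuX Pool.Agent.Lib.MP_1a91b9_nuX.DB Pool.Agent.Lib.MP_1a91b9_nuX.GL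
open Pool.Agent.Lib.MP_1a91b9_nuX.TG
open Pool.Agent.Lib.MP_1a91b9_nuX.TH (NaW BaseH nG nG_ne gB_dvd_nG gdA_of_gd)
open Pool.Agent.Lib.MP_1a91b9_nuT.PL (Concl)
open Pool.Agent.Lib.MP_1a91b9_nuW.ZD Pool.Agent.Lib.MP_1a91b9_nuW.DY

variable [CD] [HC]

section
variable {ℓ : ℕ} [hℓ : Fact ℓ.Prime] (hD : ¬ (ℓ : ℤ) ∣ CD.bad) (hS : STW.{0} ℓ)
  (hV : VAL.{0} ℓ) (F₀ L M : Type) [Field F₀]
  [NumberField F₀]
  [Algebra K F₀] (hB : ∀ (F : Type) [Field F] [NumberField F] [Algebra K F],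
    Cpy F₀ F → BaseH ℓ F) [Field L] [NumberField L] [Field M] [NumberField M] [Algebra K L]
  [Algebra K M] [Algebra F₀ L] [Algebra L M] [Algebra F₀ M] [IsScalarTower K F₀ L]
  [IsScalarTower K F₀ M] [IsScalarTower F₀ L M] [IsGalois F₀ M] (n : ℕ)
  (hM : finrank F₀ M = ℓ ^ n) (hL : RamZ ℓ F₀ L)
include hℓ hD hS hV hB hM hL

/-- **The `ℓ`-part of the formula.** -/
theorem concl_sub (hE : EllK) {μ : 𝓞 K} (hμ : ¬ ℓ ∣ nAb μ) (hng : ¬ ℓ ∣ nG μ)
    (hnw : NaW ℓ ((nG μ : ℕ) : 𝓞 K) (E F₀)) (L' : Type) [Field L']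
    [NumberField L'] [Algebra K L'] [Algebra F₀ L'] [IsScalarTower K F₀ L'] [IsGalois K L']
    [DecidableEq L'] {T : Pt L'} (hT : AbT μ K T) (N : Type) [Field N] [NumberField N]
    [Algebra N L] (W : WeierstrassCurve N) (C : VariableChange L)
    (hC : C • W.baseChange L = E L) : Concl ℓ W := by
  have hcop : (nG μ).Coprime ℓ := ((Nat.Prime.coprime_iff_not_dvd hℓ.out).2 hng).symm
  have hg0 := nG_ne hT.ne
  have hG0 : ((nG μ : ℕ) : 𝓞 K) ≠ 0 := Nat.cast_ne_zero.2 hg0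
  rcases exists_sub L N with ⟨aKN, hst⟩ | ⟨N', _, _, _, _, _, t1, t2, h2, hn⟩
  · obtain ⟨F, _, _, _, _, _, s1, s2, D₀, h⟩ :=
      datZ_of_K hD hS F₀ L M hB n hM hL hE hnw N hC
    have hg := h.good
    exact QW.thm_KD hE N F F₀ L' hT h.gen hG0 (gB_dvd_nG μ) (Nat.Coprime.cast hcop) hV hg.wok
      hD hg.unitZ hg.fin hg.cop hg.sha h.nawF h.iso fun a b D hDW v hv =>
        gdA_of_gd hDW (gd_ell_K hℓ.out hD hμ N F F₀ L' hT h.gen h.iso v hv)
  · have e1 : (W.map (algebraMap N N')).baseChange L = W.baseChange L := by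
      change (W.map (algebraMap N N')).map (algebraMap N' L) = W.map (algebraMap N L)
      rw [WeierstrassCurve.map_map, ← IsScalarTower.algebraMap_eq]
    obtain ⟨F, _, _, _, _, _, s1, s2, D₀, h⟩ :=
      datZ_of_K hD hS F₀ L M hB n hM hL hE hnw N' (W := W.map (algebraMap N N'))
        (C := C) (by rw [e1]; exact hC)
    have hg := h.good
    let aNF : Algebra N F := ((algebraMap N' F).comp (algebraMap N N')).toAlgebra
    have t3 : IsScalarTower N N' F := IsScalarTower.of_algebraMap_eq fun x => rfl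
    exact QW.thm_ND hE N N' F F₀ L' hT h2 hn h.gen hg0 (gB_dvd_nG μ) hcop hV hg.wok
      hD hg.unitZ hg.fin hg.cop hg.sha h.nawF (C := D₀) (W := W) (by
        have h3 := h.iso
        rw [WeierstrassCurve.map_map] at h3
        exact h3) fun a b D hDW v hv =>
          gdA_of_gd hDW (gd_ell_N hℓ.out hD hμ N' F F₀ L' hT h.gen h2 hn h.iso v hv)

end

end Pool.Agent.Lib.MP_1a91b9_nuW.TH
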