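import Pool.Agent.Lib.MP_1a91b9_nuW.VA.Top
import Pool.Agent.Lib.MP_1a91b9_nuW.ZD.Low

/-!
# G7: the values over all the fields
-/

set_option autoImplicit false

namespace Pool.Agent.Lib.MP_1a91b9_nuW.TH

variable [Pool.Agent.Lib.MP_1a91b9_nuT.CD]

open NumberField Module Pool.Agent.Lib.MP_1a91b9_nuT Pool.Agent.Lib.MP_1a91b9_nuX
open Pool.Agent.Lib.MP_1a91b9_nuW.ZD

universe u

/-- VAL for all the fields -/
theorem val_all [HC] (ℓ : ℕ) : VAL.{u} ℓ :=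
  fun M _ _ _ h _ hp => ⟨2 ^ ℓ, VA.valW_two hp M h⟩

end Pool.Agent.Lib.MP_1a91b9_nuW.TH
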