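import Pool.Agent.Lib.MP_1a91b9_nuX.TH.Top
import Pool.Agent.Lib.MP_1a91b9_nuW.TH.Glu
import Pool.Agent.Lib.MP_1a91b9_nuW.TH.Val

/-!
# G7: the theorem over a general base field for one prime number
-/

set_option autoImplicit false

namespace Pool.Agent.Lib.MP_1a91b9_nuW.TH

open NumberField IsDedekindDomain Module WeierstrassCurve Pool.Agent.Lib.MP_1a91b9_nuT
open Pool.Agent.Lib.MP_1a91b9_nt
open Pool.Agent.Lib.MP_1a91b9_nuX
open Pool.Agent.Lib.MP_1a91b9_nuX.DB Pool.Agent.Lib.MP_1a91b9_nuX.GL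
open Pool.Agent.Lib.MP_1a91b9_nuX.TG
open Pool.Agent.Lib.MP_1a91b9_nuX.TH (GoodEllH)
open Pool.Agent.Lib.MP_1a91b9_nuW.ZD Pool.Agent.Lib.MP_1a91b9_nuW.DY

variable [CD] [HC]

omit [HC] in
/-- The ramification condition in terms of the number of points, outside of the places above `c`. The places above `ℓ` may
ramify if `ℓ` splits in `K`. -/
def RamY (ℓ : ℕ) (A B : ℤ) (c : 𝓞 K) (F₀ L : Type) [Field F₀] [NumberField F₀] [Algebra K F₀]
    [Field L] [NumberField L] [Algebra F₀ L] : Prop :=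
  ∀ (v : HeightOneSpectrum (𝓞 F₀)) (w : HeightOneSpectrum (𝓞 L)),
    v.asIdeal.map (algebraMap (𝓞 F₀) (𝓞 L)) ≤ w.asIdeal ^ 2 →
      ((ℓ : 𝓞 F₀) ∈ v.asIdeal → Splt ℓ) ∧ (MP_1a91b9_nuG.up c F₀ ∉ v.asIdeal →
        ¬ ℓ ∣ Nat.card (⟨0, 0, 0, ((A : ℤ) : 𝓞 F₀ ⧸ v.asIdeal), ((B : ℤ) : 𝓞 F₀ ⧸ v.asIdeal)⟩ :
          WeierstrassCurve (𝓞 F₀ ⧸ v.asIdeal)).toAffine.Point)

section
variable {μ c : 𝓞 K} {F₀ L₀ : Type} [Field F₀] [NumberField F₀] [Algebra K F₀] [Field L₀]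
  [NumberField L₀] [Algebra K L₀] [Algebra F₀ L₀] [IsScalarTower K F₀ L₀] [DecidableEq L₀]
  {J : Pt L₀}

theorem ramZ_of {ℓ : ℕ} (h : GoodEllH μ c ℓ F₀) (hc : ((CD.bad : ℤ) : 𝓞 K) ∣ c)
    {L : Type} [Field L] [NumberField L] [Algebra F₀ L] (hL : RamY ℓ CD.A CD.B c F₀ L) :
    RamZ ℓ F₀ L := by
  rintro v ⟨w, hw⟩
  obtain ⟨h1, h2⟩ := hL v w hw
  refine ⟨h1, ?_⟩
  by_cases h3 : MP_1a91b9_nuG.up c F₀ ∈ v.asIdeal
  · exact h.nac v h3
  · refine cop_of_card h.prime v (fun h4 => h3 ?_) (h2 h3)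
    have h5 := map_dvd (algebraMap (𝓞 K) (𝓞 F₀)) hc
    rw [map_intCast] at h5
    exact v.asIdeal.mem_of_dvd h5 h4

/-- **The conclusion for one prime number.** -/
theorem conclH_ell (hE : EllK) [IsGalois K L₀] (hJ : AbT μ K J)
    (hc : ((CD.bad : ℤ) : 𝓞 K) ∣ c) {ℓ : ℕ} (h : GoodEllH μ c ℓ F₀) (hS : STW.{0} ℓ)
    (N L M : Type) [Field N] [NumberField N] [Field L]
    [NumberField L] [Field M] [NumberField M] [Algebra N L] [Algebra F₀ L] [Algebra L M]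
    [Algebra F₀ M] [IsScalarTower F₀ L M] [IsGalois F₀ M] (n : ℕ) (hM : finrank F₀ M = ℓ ^ n)
    (hL : RamY ℓ CD.A CD.B c F₀ L) (W : WeierstrassCurve N) (C : VariableChange L)
    (hC : C • W.baseChange L = E L) : ConclR W := by
  let aKL : Algebra K L := ((algebraMap F₀ L).comp (algebraMap K F₀)).toAlgebra
  let aKM : Algebra K M := ((algebraMap F₀ M).comp (algebraMap K F₀)).toAlgebra
  have t1 : IsScalarTower K F₀ L := IsScalarTower.of_algebraMap_eq fun x => rfl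
  have t2 : IsScalarTower K F₀ M := IsScalarTower.of_algebraMap_eq fun x => rfl
  exact conclR_sub h.good hS F₀ L M h.base n hM (ramZ_of h hc hL) h.prime hE L₀ hJ N W C hC

/-- **The conclusion for one prime number: the `ℓ`-part of the formula.** -/
theorem conclP_ell (hE : EllK) [IsGalois K L₀] (hJ : AbT μ K J)
    (hc : ((CD.bad : ℤ) : 𝓞 K) ∣ c) {ℓ : ℕ} [hℓ : Fact ℓ.Prime] (h : GoodEllH μ c ℓ F₀)
    (hS : STW.{0} ℓ)
    (N L M : Type) [Field N] [NumberField N] [Field L]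
    [NumberField L] [Field M] [NumberField M] [Algebra N L] [Algebra F₀ L] [Algebra L M]
    [Algebra F₀ M] [IsScalarTower F₀ L M] [IsGalois F₀ M] (n : ℕ) (hM : finrank F₀ M = ℓ ^ n)
    (hL : RamY ℓ CD.A CD.B c F₀ L) (W : WeierstrassCurve N) (C : VariableChange L)
    (hC : C • W.baseChange L = E L) : MP_1a91b9_nuT.PL.Concl ℓ W := by
  let aKL : Algebra K L := ((algebraMap F₀ L).comp (algebraMap K F₀)).toAlgebra
  let aKM : Algebra K M := ((algebraMap F₀ M).comp (algebraMap K F₀)).toAlgebra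
  have t1 : IsScalarTower K F₀ L := IsScalarTower.of_algebraMap_eq fun x => rfl
  have t2 : IsScalarTower K F₀ M := IsScalarTower.of_algebraMap_eq fun x => rfl
  exact concl_sub h.good hS (val_all.{0} ℓ) F₀ L M h.base n hM (ramZ_of h hc hL) hE h.mu h.ng h.naw
    L₀ hJ N W C hC

end

end Pool.Agent.Lib.MP_1a91b9_nuW.TH
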