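import Pool.Agent.Lib.MP_1a91b9_nuW.TH.Twr
import Pool.Agent.Lib.MP_1a91b9_nuW.TH.Val
import Pool.Agent.Lib.MP_1a91b9_nuW.WN.Step
import Pool.Agent.Lib.MP_1a91b9_nuW.CF.MainW

/-!
# G7: the step of the unit property and the fields of the tower
-/

set_option autoImplicit false

namespace Pool.Agent.Lib.MP_1a91b9_nuW.TH

variable [Pool.Agent.Lib.MP_1a91b9_nuT.CD]

open NumberField IsDedekindDomain Module Pool.Agent.Lib.MP_1a91b9_nuT
  Pool.Agent.Lib.MP_1a91b9_nuX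
open Pool.Agent.Lib.MP_1a91b9_nuX.TH (BaseH)
open Pool.Agent.Lib.MP_1a91b9_nuW.DY

universe u

/-- **The step** of the unit property above `p` for `ℓ = p cj p`. -/
theorem stw_all [HC] {ℓ : ℕ} (hℓ : ℓ.Prime) (hD : ¬ (ℓ : ℤ) ∣ CD.bad) : STW.{u} ℓ := by
  intro F F' _ _ _ _ _ _ _ _ _ hd h2 ha p hp hU
  have hF : Fact ℓ.Prime := ⟨hℓ⟩
  obtain ⟨x, f, hx⟩ := exists_wx hℓ hp.odd F F' hd
  refine WN.stepW hd hp (TG.f_coprime hℓ hD) hx (fun v hv _ => ha v hv) 2 ?_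
    (VA.valW_two hp F h2) hU
  have h3 : Nat.Coprime 2 ℓ := (Nat.coprime_primes Nat.prime_two hℓ).2 (Ne.symm hp.odd)
  have h4 := Nat.Coprime.cast (R := 𝓞 K) h3
  rwa [Nat.cast_ofNat] at h4

section
variable [HC]
  {P : ∀ (F : Type u) [Field F] [NumberField F] [Algebra K F], Prop} {ℓ : ℕ}
  (hP : ∀ (F : Type u) [Field F] [NumberField F] [Algebra K F], P F → BaseH ℓ F)
  (hD : ¬ (ℓ : ℤ) ∣ CD.bad)
  {F : Type u} [Field F] [NumberField F] [Algebra K F]
include hP hD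

/-- **The fields of the tower** satisfy the hypotheses of the `ℓ`-part of the formula. -/
theorem goodZ_tower [hℓ : Fact ℓ.Prime] (h : TowerW P ℓ F) : GoodZ ℓ F :=
  goodZ_towerW hP hD (stw_all hℓ.out hD) h

/-- the series continue and do not vanish at `1` over the fields of the tower -/
theorem lgood_tower (hℓ : ℓ.Prime) (h : TowerW P ℓ F) : AN.LGood F :=
  lgood_towerW hP hℓ hD (stw_all hℓ hD) h

end

end Pool.Agent.Lib.MP_1a91b9_nuW.TH
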