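import Pool.Agent.Lib.MP_1a91b9_nuX.TH.Twr
import Pool.Agent.Lib.MP_1a91b9_nuW.DY.Top

/-!
# G7: the tower with wild ramification, the algebraic side

The base fields have the property `BaseH ℓ` of nuX/TH/Twr.
-/

set_option autoImplicit false

namespace Pool.Agent.Lib.MP_1a91b9_nuW.TH

variable [Pool.Agent.Lib.MP_1a91b9_nuT.CD]

open NumberField IsDedekindDomain WeierstrassCurve Module Pool.Agent.Lib.MP_1a91b9_nuT
open Pool.Agent.Lib.MP_1a91b9_nuX Pool.Agent.Lib.MP_1a91b9_nuX.DB Pool.Agent.Lib.MP_1a91b9_nuX.DX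
  Pool.Agent.Lib.MP_1a91b9_nuX.DS
open Pool.Agent.Lib.MP_1a91b9_nuX.TG (e2_up e2_down five_le)
open Pool.Agent.Lib.MP_1a91b9_nuX.TH (BaseH GoodH)
open Pool.Agent.Lib.MP_1a91b9_nuW.DS Pool.Agent.Lib.MP_1a91b9_nuW.DY
open scoped Classical
open Pool.Agent.Lib.MP_1a91b9_nuT3.S9 (ShaP)

universe u

section
variable [HC]
  {P : ∀ (F : Type u) [Field F] [NumberField F] [Algebra K F], Prop} {ℓ : ℕ}

/-- if `ℓ` is inert, nothing ramifies above `ℓ` -/
theorem towerG_of_towerW (hs : ¬ Splt ℓ) {F : Type u} [Field F] [NumberField F] [Algebra K F]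
    (h : TowerW P ℓ F) : TowerG P ℓ F := by
  induction h with
  | base F hb => exact TowerG.base F hb
  | step F F' hG hr hu ha h ih =>
    exact TowerG.step F F' hG hr (fun v hv h1 => hs (hu v hv h1)) ha ih

variable (hP : ∀ (F : Type u) [Field F] [NumberField F] [Algebra K F], P F → BaseH ℓ F)
include hP

theorem e2_towerW (hℓ : ℓ.Prime) {F : Type u} [Field F] [NumberField F] [Algebra K F]
    (h : TowerW P ℓ F) : ¬ ℓ ∣ 2 ^ finrank K F - 1 := by
  induction h with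
  | base F hb => exact (hP F hb).e2
  | step F F' hG hr hu ha h ih =>
    rw [← Module.finrank_mul_finrank K F F', hr]
    exact e2_up hℓ ih

variable (F : Type u) [Field F] [NumberField F] [Algebra K F]

/-- the algebraic package over the fields of the tower -/
theorem aw_towerW {ϖ : 𝓞 K} {q : ℕ} (h : PD ϖ ℓ q) (hF : TowerW P ℓ F) : AW ϖ ℓ F :=
  aw_tower h (fun F _ _ _ hb => AW.base h (hP F hb).unr ((hP F hb).vt ϖ q h)
    ((hP F hb).dt ϖ q h)) F hF

/-- the group of points is finite over the fields of the tower -/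
theorem finite_towerW (hD : ¬ (ℓ : ℤ) ∣ CD.bad) (hℓ : ℓ.Prime) (hF : TowerW P ℓ F) :
    Finite (E F).toAffine.Point := by
  obtain ⟨ϖ, q, hp⟩ := DX.exists_pd hℓ hD
  have hℓ' : Fact ℓ.Prime := ⟨hℓ⟩
  exact (top_W hp (aw_towerW hP F hp hF) (aw_towerW hP F (pd_cj hp) hF)).1

/-- the algebraic side at the top -/
theorem alg_towerW [hℓ : Fact ℓ.Prime] (hD : ¬ (ℓ : ℤ) ∣ CD.bad) (hF : TowerW P ℓ F) :
    Finite (E F).toAffine.Point ∧ (Nat.card (E F).toAffine.Point).Coprime ℓ ∧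
      Subsingleton (ShaP ℓ (E F)) := by
  obtain ⟨ϖ, q, hp⟩ := DX.exists_pd hℓ.out hD
  exact top_W hp (aw_towerW hP F hp hF) (aw_towerW hP F (pd_cj hp) hF)

end

end Pool.Agent.Lib.MP_1a91b9_nuW.TH
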